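import Pool.Agent.Q205.TD.Count
import Pool.Agent.Q205.TD.SW

/-!
# The graph of a trigonometric polynomial never has a singleton dimension spectrum

For every optimal prefix-free machine `U` and every trigonometric polynomial `f` there is a point
`x` of the unit interval such that the effective Hausdorff dimensions of `(x, f x)` and of
`(0, f 0)` are different (`edim`, `Kr`, `trig` are defined in `Pool.Agent.Q205.TD.Defs`).

Idea of the proof. With `t = tan (x / 2)` the function `f` becomes a polynomial: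
`f x (1 + t ^ 2) ^ m = P (t)`, `P` of degree at most `2 m` with `P 0 = f 0`. Suppose that all points
over the unit interval have the same dimension. It is at most one, because `(0, f 0)` has dimension
at most one. By the Borel-Cantelli lemma for infinitely many precisions `r` the set of all `x` with
`K_r (x, f x) ≤ r + r / b` has measure at least `1 / (r + 1) ^ 2`. For such `r` the rounded
polynomial `P` passes close to rational points of complexity at most `r + r / b` in
`2 ^ (r - r / b)` columns. Since there are at most `2 ^ (r + r / b + 1)` rational points of this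
complexity, and two polynomials with different values at `0` cannot share many of these points
(Lagrange interpolation), the constant coefficient of `P` has, at the precision `r / 2`, at most
`2 ^ (2 r / b + 4)` possible values, and these can be enumerated. So the dimension of `(0, f 0)` is
at most `1 / 2`. But some point over the unit interval has dimension at least `3 / 4`.
-/

set_option autoImplicit false

namespace Pool.Agent.Results.MP_39a050_lc.NoSingletonSpectrum

open Pool.Agent.Q205.TD Pool.Agent.Helper227 Q217.KT Q247.ML MeasureTheory Filter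
open Q217.PR (primrec_two_pow)

theorem cast_pred (n : ℕ) : (((2 ^ n - 1 : ℕ) : ℝ)) + 1 = 2 ^ n := by
  have h : 1 ≤ 2 ^ n := Nat.one_le_two_pow
  push_cast [h]
  ring

theorem sqrt_zero_add (d : ℕ) (x : ℝ) : √((((0 : ℤ) : ℝ) / ((d : ℝ) + 1) - 0) ^ 2 + x ^ 2) = |x| := by
  rw [Int.cast_zero, zero_div, sub_zero, zero_pow (by norm_num), zero_add, Real.sqrt_sq_eq_abs]

/-- The points on the vertical axis have dimension at most one. -/
theorem le_one {U : List Bool →. List Bool} (hU : OptimalPrefixFree U) (y : ℝ) :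
    edim U 0 y ≤ 1 := by
  by_contra hcon
  rw [not_le] at hcon
  obtain ⟨q, hq1, hq2⟩ := EReal.lt_iff_exists_real_btwn.1 hcon
  have hq1' : (1 : ℝ) < q := by exact_mod_cast hq1
  obtain ⟨b, hb⟩ := exists_nat_gt (2 / (q - 1))
  have hq0 : 0 < q - 1 := by linarith
  have hb0 : (0 : ℝ) < b := lt_trans (by positivity) hb
  have hb1 : 1 ≤ b := by exact_mod_cast hb0
  have hbq : 1 + 2 / (b : ℝ) < q := by
    rw [div_lt_iff₀ hq0] at hb
    have : 2 / (b : ℝ) < q - 1 := by
      rw [div_lt_iff₀ hb0]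
      linarith [mul_comm (b : ℝ) (q - 1)]
    linarith
  obtain ⟨C, hC⟩ : ∃ C : ℕ, |y| + 1 < 2 ^ C := by
    obtain ⟨n, hn⟩ := exists_nat_gt (|y| + 1)
    exact ⟨n, hn.trans (by exact_mod_cast Nat.lt_two_pow_self)⟩
  have hW : S1 fun z : ℕ × ℤ => z.2.natAbs < 2 ^ (z.1 + C) :=
    S1.of_prim (Primrec.nat_lt.comp (prim_natAbs.comp Primrec.snd)
      (primrec_two_pow.comp (Primrec.nat_add.comp Primrec.fst (Primrec.const C))))
  obtain ⟨c, hc⟩ := kb U hU (fun z : ℕ × ℤ => z.2.natAbs < 2 ^ (z.1 + C)) hW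
    (fun r => r + C + 1) (fun r => r) (Primrec.succ.comp (Primrec.nat_add.comp Primrec.id
      (Primrec.const C))) Primrec.id b hb1 (by
      intro r T hT
      have h1 : T ⊆ Finset.Ioo (-(2 ^ (r + C) : ℤ)) (2 ^ (r + C)) := by
        intro w hw
        have h2 : w.natAbs < 2 ^ (r + C) := hT w hw
        have h3 : |w| < 2 ^ (r + C) := by
          rw [Int.abs_eq_natAbs]
          exact_mod_cast h2
        rw [Finset.mem_Ioo]
        exact abs_lt.1 h3
      have h2 := Finset.card_le_card h1
      rw [Int.card_Ioo] at h2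
      have h3 : ((2 : ℤ) ^ (r + C) - -(2 ^ (r + C)) - 1).toNat = 2 ^ (r + C + 1) - 1 := by
        have e : (2 : ℤ) ^ (r + C) - -(2 ^ (r + C)) - 1 = ((2 ^ (r + C + 1) - 1 : ℕ) : ℤ) := by
          have h : 1 ≤ 2 ^ (r + C + 1) := Nat.one_le_two_pow
          push_cast [h]
          ring
        rw [e, Int.toNat_natCast]
      rw [h3] at h2
      exact h2.trans (Nat.sub_le _ _))
  have h1 : edim U 0 y ≤ ((1 + 2 / (b : ℝ) : ℝ) : EReal) := by
    unfold edim
    refine liminf_le_of_frequently_le' (Eventually.frequently ?_)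
    filter_upwards [eventually_ge_atTop (b * (C + 1 + c) + 1)] with r hr
    have hr1 : 1 ≤ r := by omega
    have hr0 : (0 : ℝ) < r := by exact_mod_cast hr1
    have h2r : (0 : ℝ) < 2 ^ r := by positivity
    obtain ⟨w, hw⟩ : ∃ w : ℤ, w = ⌊2 ^ r * y⌋ := ⟨_, rfl⟩
    have f1 := Int.floor_le (2 ^ r * y)
    have f2 := Int.lt_floor_add_one (2 ^ r * y)
    rw [← hw] at f1 f2
    have h3 : w.natAbs < 2 ^ (r + C) := by
      have h4 : |(w : ℝ)| < 2 ^ (r + C) := by
        have h5 : |(w : ℝ)| ≤ 2 ^ r * |y| + 1 := by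
          rw [← abs_of_pos h2r, ← abs_mul, abs_le]
          have := abs_le.1 (le_refl |2 ^ r * y|)
          constructor
          · linarith [this.1]
          · linarith [this.2]
        have h6 : (2 : ℝ) ^ r * |y| + 1 ≤ 2 ^ r * (|y| + 1) := by
          rw [mul_add, mul_one]
          have : (1 : ℝ) ≤ 2 ^ r := one_le_pow₀ (by norm_num)
          linarith
        rw [pow_add]
        calc |(w : ℝ)| ≤ 2 ^ r * (|y| + 1) := h5.trans h6
          _ < 2 ^ r * 2 ^ C := by gcongr
      have h5 : |w| < 2 ^ (r + C) := by exact_mod_cast h4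
      rw [Int.abs_eq_natAbs] at h5
      exact_mod_cast h5
    have h4 := hc r w h3
    have h5 : Kr U 0 y r ≤ Kc U (0, w, 2 ^ r - 1) := by
      apply Kr_le
      simp only
      rw [sqrt_zero_add, cast_pred, one_div_pow]
      have e : (w : ℝ) / 2 ^ r - y = ((w : ℝ) - 2 ^ r * y) / 2 ^ r := by field_simp
      rw [e, abs_div, abs_of_pos h2r]
      apply div_lt_div_of_pos_right _ h2r
      rw [abs_lt]
      constructor <;> linarith
    have h6 : Kr U 0 y r ≤ r + r / b + (C + 1 + c) := by
      omega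
    have h7 : b * (C + 1 + c) ≤ r := by omega
    have h8 : (b : ℝ) * (C + 1 + c) ≤ r := by exact_mod_cast h7
    have h9 : (Kr U 0 y r : ℝ) ≤ r + ((r / b : ℕ) : ℝ) + (C + 1 + c) := by exact_mod_cast h6
    have h10 : ((r / b : ℕ) : ℝ) ≤ r / b := Nat.cast_div_le
    have h11 : (C : ℝ) + 1 + c ≤ r / b := by
      rw [le_div_iff₀ hb0]
      linarith [mul_comm (b : ℝ) (C + 1 + c)]
    rw [EReal.coe_le_coe_iff, div_le_iff₀ hr0]
    have e : (1 + 2 / (b : ℝ)) * r = r + r / b + r / b := by ring
    rw [e]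
    linarith
  have h2 : ((1 + 2 / (b : ℝ) : ℝ) : EReal) < (q : EReal) := by exact_mod_cast hbq
  exact absurd (h1.trans_lt h2) (not_lt.2 hq2.le)

/-- **No trigonometric polynomial graph has a singleton dimension spectrum.** For every optimal
prefix-free machine `U` and every trigonometric polynomial `f` some point `(x, f x)` with
`0 ≤ x ≤ 1` has an effective dimension different from that of `(0, f 0)`. -/
theorem result (U : List Bool →. List Bool) (hU : OptimalPrefixFree U) (m : ℕ) (a b : ℕ → ℝ) :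
    ∃ x ∈ Set.Icc (0 : ℝ) 1,
      edim U x (trig m a b x) ≠ edim U 0 (trig m a b 0) := by
  by_contra hcon
  push Not at hcon
  obtain ⟨f, hf⟩ : ∃ f, f = trig m a b := ⟨_, rfl⟩
  rw [← hf] at hcon
  have hle : ∀ x ∈ Set.Icc (0 : ℝ) 1, edim U x (f x) ≤ 1 := fun x hx => by
    rw [hcon x hx]
    exact le_one hU _
  obtain ⟨B, hB⟩ : ∃ B, B = 32 * (m + 1) := ⟨_, rfl⟩
  have hB1 : 1 ≤ B := by omega
  obtain ⟨A, R₁, hexi⟩ := exi U m a b B hB1
  rw [← hf] at hexi
  obtain ⟨R₂, hcount⟩ := count U hU m A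
  rw [← hB] at hcount
  obtain ⟨c, hc⟩ := kb U hU (fun z : ℕ × ℤ => W U m A B R₂ z.1 z.2) (sw U hU m A B R₂)
    (fun r => 2 * (r / B) + 4) (fun r => r / 2)
    (Primrec.nat_add.comp (Primrec.nat_mul.comp (Primrec.const 2) (Primrec.nat_div.comp
      Primrec.id (Primrec.const B))) (Primrec.const 4))
    (Primrec.nat_div.comp Primrec.id (Primrec.const 2)) B hB1 (by
      intro r T hT
      by_cases hr : R₂ ≤ r
      · exact hcount r hr T hT
      · have : T = ∅ := by
          rw [Finset.eq_empty_iff_forall_notMem]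
          intro w hw
          exact hr (hT w hw).1
        rw [this]
        simp)
  have hhalf : edim U 0 (f 0) ≤ ((1 / 2 : ℝ) : EReal) := by
    unfold edim
    refine liminf_le_of_frequently_le' ?_
    rw [frequently_atTop]
    intro N
    obtain ⟨r, hr, hvol⟩ := meas2 U f B hB1 hle (R₁ + R₂ + 2 * N + 32 * (c + 10))
    obtain ⟨l, hl1, hl2, hl3⟩ := hexi r (by omega) hvol
    refine ⟨r / 2 - 1, by omega, ?_⟩
    obtain ⟨w, hw⟩ : ∃ w : ℤ, w = l.headI / 2 ^ (r - r / 2) := ⟨_, rfl⟩
    have hp : (0 : ℤ) < 2 ^ (r - r / 2) := by positivity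
    have hw1 : w * 2 ^ (r - r / 2) ≤ l.headI := by rw [hw]; exact Int.ediv_mul_le _ hp.ne'
    have hw2 : l.headI < (w + 1) * 2 ^ (r - r / 2) := by
      rw [hw]; exact Int.lt_ediv_add_one_mul_self _ hp
    have hWw : W U m A B R₂ r w := ⟨by omega, l, hl1, hl2, hw1, hw2⟩
    have h1 := hc r w hWw
    have h2 : Kr U 0 (f 0) (r / 2 - 1) ≤ Kc U (0, w, 2 ^ (r / 2) - 1) := by
      apply Kr_le
      simp only
      rw [sqrt_zero_add, cast_pred, one_div_pow]
      have hsplit : (2 : ℝ) ^ r = 2 ^ (r - r / 2) * 2 ^ (r / 2) := by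
        rw [← pow_add]
        congr 1
        omega
      have g1 : (w : ℝ) * 2 ^ (r - r / 2) ≤ l.headI := by exact_mod_cast hw1
      have g2 : (l.headI : ℝ) < (w + 1) * 2 ^ (r - r / 2) := by exact_mod_cast hw2
      have p1 : (0 : ℝ) < 2 ^ (r - r / 2) := by positivity
      have p2 : (0 : ℝ) < 2 ^ (r / 2) := by positivity
      have p3 : (0 : ℝ) < 2 ^ r := by positivity
      have g3 : (w : ℝ) / 2 ^ (r / 2) ≤ (l.headI : ℝ) / 2 ^ r := by
        rw [div_le_div_iff₀ p2 p3, hsplit, ← mul_assoc]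
        gcongr
      have g4 : (l.headI : ℝ) / 2 ^ r < (w : ℝ) / 2 ^ (r / 2) + 1 / 2 ^ (r / 2) := by
        rw [← add_div, div_lt_div_iff₀ p3 p2, hsplit, ← mul_assoc]
        gcongr
      have g5 : (1 : ℝ) / 2 ^ r ≤ 1 / 2 ^ (r / 2) :=
        one_div_le_one_div_of_le p2 (pow_le_pow_right₀ (by norm_num) (Nat.div_le_self _ _))
      have g6 : (1 : ℝ) / 2 ^ (r / 2 - 1) = 1 / 2 ^ (r / 2) + 1 / 2 ^ (r / 2) := by
        have e : r / 2 = (r / 2 - 1) + 1 := by omega
        have e2 : (2 : ℝ) ^ (r / 2) = 2 ^ (r / 2 - 1) * 2 := by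
          conv_lhs => rw [e, pow_succ]
        rw [e2]
        field_simp
        norm_num
      have g7 := abs_le.1 hl3
      rw [g6, abs_lt]
      constructor
      · linarith [g7.1, g7.2]
      · have : (0 : ℝ) < 1 / 2 ^ (r / 2) := by positivity
        linarith [g7.1, g7.2]
    have h3 : Kr U 0 (f 0) (r / 2 - 1) ≤ 3 * (r / B) + 4 + c := by
      omega
    have h4 : r / B ≤ r / 32 := Nat.div_le_div_left (by omega) (by norm_num)
    have h5 : 2 * Kr U 0 (f 0) (r / 2 - 1) ≤ r / 2 - 1 := by omega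
    have h6 : 0 < r / 2 - 1 := by omega
    rw [EReal.coe_le_coe_iff, div_le_iff₀ (by exact_mod_cast h6)]
    have h7 : ((2 * Kr U 0 (f 0) (r / 2 - 1) : ℕ) : ℝ) ≤ ((r / 2 - 1 : ℕ) : ℝ) := by
      exact_mod_cast h5
    rw [Nat.cast_mul, Nat.cast_ofNat] at h7
    linarith
  obtain ⟨x, hx, hx2⟩ := meas1 cnt U hU f
  rw [hcon x hx] at hx2
  have h := hx2.trans hhalf
  rw [EReal.coe_le_coe_iff] at h
  norm_num at h

end Pool.Agent.Results.MP_39a050_lc.NoSingletonSpectrum
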